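import Pool.Agent.Lib.MP_c14890_al.H4

/-!
# Noetherian affine PI weak Hopf algebras have finite injective dimension (Q2)

The weak Hopf algebra axioms are written out exactly as in the frozen statement of Q1; the two
additional hypotheses are that `H` is finitely generated as a `k`-algebra (affine) and satisfies a
nonzero polynomial identity over `k` (PI).
-/

set_option autoImplicit false

open scoped TensorProduct

namespace Pool.Agent.Results.MP_c14890_al.AffinePIFiniteInjDim

/-- Every left and right noetherian, affine, PI weak Hopf algebra over a field has finite injective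
dimension as a left module and as a right module over itself. -/
theorem result :
  ∀ (k : Type) [Field k] (H : Type) [Ring H] [Algebra k H] [Coalgebra k H],
    (∀ x y : H, CoalgebraStruct.comul (R := k) (A := H) (x * y)
        = CoalgebraStruct.comul (R := k) (A := H) x * CoalgebraStruct.comul (R := k) (A := H) y) →
    (TensorProduct.assoc k H H H
        (LinearMap.rTensor H (CoalgebraStruct.comul (R := k) (A := H))
          (CoalgebraStruct.comul (R := k) (A := H) (1 : H)))
      = TensorProduct.assoc k H H H (CoalgebraStruct.comul (R := k) (A := H) (1 : H) ⊗ₜ[k] (1 : H))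
          * ((1 : H) ⊗ₜ[k] CoalgebraStruct.comul (R := k) (A := H) (1 : H))
     ∧ TensorProduct.assoc k H H H
        (LinearMap.rTensor H (CoalgebraStruct.comul (R := k) (A := H))
          (CoalgebraStruct.comul (R := k) (A := H) (1 : H)))
      = ((1 : H) ⊗ₜ[k] CoalgebraStruct.comul (R := k) (A := H) (1 : H))
          * TensorProduct.assoc k H H H (CoalgebraStruct.comul (R := k) (A := H) (1 : H) ⊗ₜ[k] (1 : H))) →
    (∀ x y z : H,
      CoalgebraStruct.counit (R := k) (A := H) (x * y * z)
        = LinearMap.mul' k k (TensorProduct.map
            (CoalgebraStruct.counit (R := k) (A := H) ∘ₗ LinearMap.mulLeft k x)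
            (CoalgebraStruct.counit (R := k) (A := H) ∘ₗ LinearMap.mulRight k z)
            (CoalgebraStruct.comul (R := k) (A := H) y))
      ∧ CoalgebraStruct.counit (R := k) (A := H) (x * y * z)
        = LinearMap.mul' k k (TensorProduct.map
            (CoalgebraStruct.counit (R := k) (A := H) ∘ₗ LinearMap.mulLeft k x)
            (CoalgebraStruct.counit (R := k) (A := H) ∘ₗ LinearMap.mulRight k z)
            (TensorProduct.comm k H H (CoalgebraStruct.comul (R := k) (A := H) y)))) →
    (∃ S : H →ₗ[k] H, ∀ x : H,
      LinearMap.mul' k H (TensorProduct.map LinearMap.id S (CoalgebraStruct.comul (R := k) (A := H) x))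
        = TensorProduct.lid k H (TensorProduct.map
            (CoalgebraStruct.counit (R := k) (A := H) ∘ₗ LinearMap.mulRight k x) LinearMap.id
            (CoalgebraStruct.comul (R := k) (A := H) (1 : H)))
      ∧ LinearMap.mul' k H (TensorProduct.map S LinearMap.id (CoalgebraStruct.comul (R := k) (A := H) x))
        = TensorProduct.rid k H (TensorProduct.map LinearMap.id
            (CoalgebraStruct.counit (R := k) (A := H) ∘ₗ LinearMap.mulLeft k x)
            (CoalgebraStruct.comul (R := k) (A := H) (1 : H)))
      ∧ LinearMap.mul' k H (TensorProduct.map (LinearMap.mul' k H ∘ₗ TensorProduct.map S LinearMap.id) S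
            (LinearMap.rTensor H (CoalgebraStruct.comul (R := k) (A := H))
              (CoalgebraStruct.comul (R := k) (A := H) x)))
        = S x) →
    IsNoetherianRing H → IsNoetherianRing Hᵐᵒᵖ →
    Algebra.FiniteType k H →
    (∃ f : FreeAlgebra k ℕ, f ≠ 0 ∧ ∀ a : ℕ → H, FreeAlgebra.lift k a f = 0) →
    (∃ n : ℕ, CategoryTheory.HasInjectiveDimensionLT (ModuleCat.of H H) n) ∧
    (∃ n : ℕ, CategoryTheory.HasInjectiveDimensionLT (ModuleCat.of Hᵐᵒᵖ H) n) :=
  WHI.main

end Pool.Agent.Results.MP_c14890_al.AffinePIFiniteInjDim
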